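import Pool.Agent.H420R6.Homeo

/-!
# MP_fffd22_an: topological conjugacy is Borel on a dense `Gδ` set of diffeomorphisms

`M` is a closed smooth manifold of any dimension.  The topology on `Diff^∞(M)` is any Polish
topology for which the inclusion into `C(M, M)` (uniform convergence) is continuous; the `C^∞`
topology is one of them.
-/

open scoped Manifold ContDiff
open Set Filter Topology

namespace Pool.Agent.Results.MP_fffd22_an.GenericBorel

section Definitions

/-- The `C^∞` diffeomorphisms of the manifold `M` of dimension `n` (without boundary). -/
def Diff (n : ℕ) (M : Type) [TopologicalSpace M] [ChartedSpace (EuclideanSpace ℝ (Fin n)) M] :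
    Type := Diffeomorph (𝓡 n) (𝓡 n) M M ∞

variable (n : ℕ) (M : Type) [TopologicalSpace M] [ChartedSpace (EuclideanSpace ℝ (Fin n)) M]

/-- The inclusion of the diffeomorphisms into the continuous self-maps of `M`. -/
def incl (f : Diff n M) : C(M, M) := ⟨Diffeomorph.toEquiv f, Diffeomorph.continuous f⟩

/-- Topological conjugacy of two continuous self-maps of a space. -/
def TopConj {X : Type} [TopologicalSpace X] (f g : C(X, X)) : Prop :=
  ∃ h : X ≃ₜ X, ∀ x, h (f x) = g (h x)

/-- Topological conjugacy on the subset `S` of a space `D` of self-maps of `X` (given by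
`ι : D → C(X, X)`) is Borel: the pairs `(f, g) ∈ S × S` which are topologically conjugate form a
Borel subset of `S × S`, where `S` has the subspace topology. -/
def ConjIsBorelOn {X D : Type} [TopologicalSpace X] [TopologicalSpace D] (ι : D → C(X, X))
    (S : Set D) : Prop :=
  @MeasurableSet (S × S) (borel (S × S)) {p : S × S | TopConj (ι p.1.1) (ι p.2.1)}

/-- `f` is structurally stable in `D`: all elements of a neighbourhood of `f` in `D` are
topologically conjugate to `f`. -/
def StructurallyStable {X D : Type} [TopologicalSpace X] [TopologicalSpace D] (ι : D → C(X, X))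
    (f : D) : Prop :=
  ∃ U : Set D, IsOpen U ∧ f ∈ U ∧ ∀ g ∈ U, TopConj (ι f) (ι g)

/-- For a space `D` of self-maps of `X`: there is a dense `Gδ` subset of `D` which contains all the
structurally stable elements of `D` and on which topological conjugacy is Borel. -/
def GenericallyBorel {X D : Type} [TopologicalSpace X] [TopologicalSpace D] (ι : D → C(X, X)) :
    Prop :=
  ∃ S : Set D, IsGδ S ∧ Dense S ∧ (∀ f, StructurallyStable ι f → f ∈ S) ∧ ConjIsBorelOn ι S

end Definitions

/-- The same for every Polish space `D` of self-maps of a compact metrizable space `X`. -/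
theorem general {X D : Type} [TopologicalSpace X] [CompactSpace X] [T2Space X]
    [SecondCountableTopology X] [TopologicalSpace D] [PolishSpace D] (ι : D → C(X, X))
    (hι : Continuous ι) : GenericallyBorel ι := by
  have := Pool.Agent.H420R6.polish_C (M := X)
  have := Pool.Agent.H420R6.polish_HP (M := X)
  obtain ⟨S, h1, h2, h3, h4⟩ := Pool.Agent.H420R6.main (Pool.Agent.H420R6.HP X) ι hι
  refine ⟨S, h1, h2, ?_, ?_⟩
  · rintro f ⟨U, hU, hf, h⟩
    exact h3 ⟨U, hU, hf, fun g hg => (Pool.Agent.H420R6.conj_iff _ _).1 (h g hg)⟩
  · borelize D
    have hc : Continuous fun p : S × S => ((p.1 : D), (p.2 : D)) :=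
      (continuous_subtype_val.comp continuous_fst).prodMk
        (continuous_subtype_val.comp continuous_snd)
    have hm : @Measurable (S × S) (D × D) (borel _) (borel _)
        fun p : S × S => ((p.1 : D), (p.2 : D)) := hc.borel_measurable
    have h5 := hm h4
    unfold ConjIsBorelOn
    convert h5 using 1
    ext p
    constructor
    · intro hp
      exact ⟨p.1.2, p.2.2, (Pool.Agent.H420R6.conj_iff _ _).1 hp⟩
    · rintro ⟨-, -, hp⟩
      exact (Pool.Agent.H420R6.conj_iff _ _).2 hp

/-- **Generic Borelness of topological conjugacy.**

For every closed smooth manifold `M` (of any dimension `n`) and every Polish topology on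
`Diff^∞(M)` for which the inclusion into `C(M, M)` (with uniform convergence) is continuous --- the
`C^∞` topology is such a topology --- there is a dense `Gδ` subset `S` of `Diff^∞(M)`, containing all
the structurally stable diffeomorphisms, such that topological conjugacy on `S` is Borel. -/
theorem result :
    ∀ (n : ℕ) (M : Type) [TopologicalSpace M] [CompactSpace M] [T2Space M]
      [ChartedSpace (EuclideanSpace ℝ (Fin n)) M] [IsManifold (𝓡 n) ∞ M]
      (_ : TopologicalSpace (Diff n M)), PolishSpace (Diff n M) → Continuous (incl n M) →
        GenericallyBorel (incl n M) := by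
  intro n M _ _ _ _ _ τ hP hι
  have : SecondCountableTopology M :=
    ChartedSpace.secondCountable_of_sigmaCompact (EuclideanSpace ℝ (Fin n)) M
  exact general _ hι

end Pool.Agent.Results.MP_fffd22_an.GenericBorel
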